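import Pool.Agent.Work.MP_223b32_es.Interface

/-! # Block MODT: vanishing of a component gives vanishing of the traces -/

set_option autoImplicit false

namespace Pool.Agent.Work.ES

open Finset Polynomial Module Pool.Agent.Work.MP_223b32_ag Pool.Agent.Work.TC
open Pool.Agent.Work.TL (AA Om Stmt_FA)

namespace MODT

theorem Fr_apply (x : Om) : Fr x = x ^ 2 := rfl

theorem Fr_pow (s : ℕ) (x : Om) : (Fr ^ s) x = x ^ 2 ^ s := by
  induction s with
  | zero => simp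
  | succ s ih =>
    rw [pow_succ', Module.End.mul_apply, ih, Fr_apply, ← pow_mul, pow_succ]

theorem Fr_pow_mul (s : ℕ) (x y : Om) : (Fr ^ s) (x * y) = (Fr ^ s) x * (Fr ^ s) y := by
  rw [Fr_pow, Fr_pow, Fr_pow, mul_pow]

theorem Fr_pow_add (s t : ℕ) (x : Om) : (Fr ^ (s + t)) x = (Fr ^ s) ((Fr ^ t) x) := by
  rw [pow_add, Module.End.mul_apply]

theorem Fr_comm (s t : ℕ) (x : Om) : (Fr ^ s) ((Fr ^ t) x) = (Fr ^ t) ((Fr ^ s) x) := by
  rw [← Fr_pow_add, ← Fr_pow_add, add_comm]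

theorem aeval_frob (Z : (ZMod 2)[X]) (x : Om) (s : ℕ) :
    (Fr ^ s) (aeval x Z) = aeval (x ^ 2 ^ s) Z := by
  induction s with
  | zero => simp
  | succ s ih =>
    rw [add_comm s 1, Fr_pow_add, ih, pow_one, Fr_apply, ← map_pow, ← ZMod.expand_card,
      expand_aeval, ← pow_mul, add_comm 1 s, pow_succ]

/-- the trace -/
noncomputable def Tr (n : ℕ) : Module.End (ZMod 2) Om := ∑ s ∈ range n, Fr ^ s

theorem Tr_apply (n : ℕ) (y : Om) : Tr n y = ∑ s ∈ range n, (Fr ^ s) y := by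
  unfold Tr
  rw [LinearMap.sum_apply]

theorem Tr_Fr (n : ℕ) (y : Om) (h : (Fr ^ n) y = y) : Tr n (Fr y) = Tr n y := by
  rw [Tr_apply, Tr_apply]
  have h1 : ∑ s ∈ range (n + 1), (Fr ^ s) y = ∑ s ∈ range n, (Fr ^ s) (Fr y) + y := by
    rw [Finset.sum_range_succ']
    congr 1
  have h2 : ∑ s ∈ range (n + 1), (Fr ^ s) y = ∑ s ∈ range n, (Fr ^ s) y + y := by
    rw [Finset.sum_range_succ, h]
  exact add_right_cancel (h1.symm.trans h2)

theorem Tr_pow (n m : ℕ) (y : Om) (h : (Fr ^ n) y = y) : Tr n ((Fr ^ m) y) = Tr n y := by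
  induction m with
  | zero => simp
  | succ m ih =>
    have h1 : (Fr ^ (m + 1)) y = Fr ((Fr ^ m) y) := by
      rw [add_comm, Fr_pow_add, pow_one]
    rw [h1, Tr_Fr n _ (by rw [Fr_comm, h]), ih]

theorem key (n m : ℕ) (θ W : Om) (h3 : (Fr ^ (3 * m)) θ = θ) (hn : (Fr ^ n) θ = θ)
    (hs : θ + (Fr ^ m) θ + (Fr ^ (2 * m)) θ = 0) (hW : (Fr ^ n) W = W) :
    Tr n (θ * aeval Fr (X ^ (2 * m) + X ^ m + 1 : (ZMod 2)[X]) W) = 0 := by
  have e1 : aeval Fr (X ^ (2 * m) + X ^ m + 1 : (ZMod 2)[X]) W =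
      (Fr ^ (2 * m)) W + (Fr ^ m) W + W := by
    rw [map_add, map_add, map_pow, map_pow, aeval_X, map_one]
    rfl
  have e2 : θ * (Fr ^ (2 * m)) W = (Fr ^ (2 * m)) ((Fr ^ m) θ * W) := by
    rw [Fr_pow_mul, ← Fr_pow_add, show 2 * m + m = 3 * m by ring, h3]
  have e3 : θ * (Fr ^ m) W = (Fr ^ m) ((Fr ^ (2 * m)) θ * W) := by
    rw [Fr_pow_mul, ← Fr_pow_add, show m + 2 * m = 3 * m by ring, h3]
  have f2 : (Fr ^ n) ((Fr ^ m) θ * W) = (Fr ^ m) θ * W := by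
    rw [Fr_pow_mul, Fr_comm, hn, hW]
  have f3 : (Fr ^ n) ((Fr ^ (2 * m)) θ * W) = (Fr ^ (2 * m)) θ * W := by
    rw [Fr_pow_mul, Fr_comm, hn, hW]
  rw [e1, mul_add, mul_add, e2, e3, map_add, map_add, Tr_pow n _ _ f2, Tr_pow n _ _ f3,
    ← map_add, ← map_add, ← add_mul, ← add_mul]
  have e4 : (Fr ^ m) θ + (Fr ^ (2 * m)) θ + θ = 0 := by
    rw [← hs]; ring
  rw [e4, zero_mul, map_zero]

theorem pow_two_odd {π : Om} (h : π ^ 3 = 1) : ∀ j : ℕ, π ^ 2 ^ (2 * j + 1) = π ^ 2 := by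
  intro j
  induction j with
  | zero => simp
  | succ j ih =>
    have e : 2 ^ (2 * (j + 1) + 1) = 2 ^ (2 * j + 1) * 4 := by
      rw [show 2 * (j + 1) + 1 = (2 * j + 1) + 2 by ring, pow_add]
      norm_num
    rw [e, pow_mul, ih, ← pow_mul, show 2 * 4 = 3 + 3 + 2 by norm_num, pow_add, pow_add, h]
    ring

/-- the traces of `η + η⁻¹` -/
theorem theta (hORB : Stmt_ORB2) (i : ℕ) (hi : 1 ≤ i) (η : Om) (h1 : η ^ 3 ^ (i + 1) = 1)
    (h2 : η ^ 3 ^ i ≠ 1) :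
    (Fr ^ (3 * 3 ^ (i - 1))) (η + η⁻¹) = η + η⁻¹ ∧
    η + η⁻¹ + (Fr ^ 3 ^ (i - 1)) (η + η⁻¹) + (Fr ^ (2 * 3 ^ (i - 1))) (η + η⁻¹) = 0 := by
  obtain ⟨j, rfl⟩ : ∃ j, i = j + 1 := ⟨i - 1, by omega⟩
  have ej : j + 1 - 1 = j := rfl
  rw [ej]
  have hη : η ≠ 0 := by
    rintro rfl
    rw [zero_pow (by positivity)] at h1
    exact zero_ne_one h1
  obtain ⟨o1, _, o3⟩ := hORB (j + 1) η h1 h2
  have e3 : 3 * 3 ^ j = 3 ^ (j + 1) := by rw [pow_succ]; ring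
  -- the cube
  have c1 : (η ^ 3) ^ 3 ^ (j + 1) = 1 := by
    rw [← pow_mul, show 3 * 3 ^ (j + 1) = 3 ^ (j + 1 + 1) by rw [pow_succ 3 (j + 1)]; ring]
    exact h1
  have c2 : (η ^ 3) ^ 3 ^ j ≠ 1 := by
    rw [← pow_mul, e3]
    exact h2
  obtain ⟨p1, _, _⟩ := hORB j (η ^ 3) c1 c2
  set m := 3 ^ j with hm
  set a := η ^ 2 ^ m with ha
  set π := a * η with hπ
  have hπ3 : π ^ 3 = 1 := by
    rw [hπ, mul_pow, ha, ← pow_mul, mul_comm (2 ^ m) 3, pow_mul, p1]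
    exact inv_mul_cancel₀ (pow_ne_zero 3 hη)
  have hπ1 : π ≠ 1 := by
    intro h
    have h4 : η ^ 2 ^ m = η ^ 2 ^ 3 ^ (j + 1) := by
      rw [o1]
      exact eq_inv_of_mul_eq_one_left h
    have hm0 : 0 < m := by rw [hm]; positivity
    have h5 := o3 m (by rw [← e3]; omega) (3 ^ (j + 1)) (by rw [← e3]; omega) h4
    rw [← e3] at h5
    omega
  have hπ0 : π ≠ 0 := by
    intro h
    rw [h] at hπ3
    norm_num at hπ3
  have hsum : π ^ 2 + π + 1 = 0 := by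
    have h6 : (π - 1) * (π ^ 2 + π + 1) = 0 := by
      have : (π - 1) * (π ^ 2 + π + 1) = π ^ 3 - 1 := by ring
      rw [this, hπ3, sub_self]
    exact (mul_eq_zero.mp h6).resolve_left (sub_ne_zero.mpr hπ1)
  have hodd : π ^ 2 ^ m = π ^ 2 := by
    obtain ⟨t, ht⟩ : Odd m := by
      rw [hm]
      exact Odd.pow (by decide)
    rw [ht]
    exact pow_two_odd hπ3 t
  have ea : a = π * η⁻¹ := by
    rw [hπ, mul_assoc, mul_inv_cancel₀ hη, mul_one]
  have ha0 : a ≠ 0 := pow_ne_zero _ hη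
  have ea2 : a ^ 2 ^ m = π * η := by
    have : a ^ 2 ^ m = π ^ 2 ^ m * (η ^ 2 ^ m)⁻¹ := by
      conv_lhs => rw [ea]
      rw [mul_pow, inv_pow]
    rw [this, hodd, ← ha]
    field_simp
    rw [ea]
    field_simp
  have q1 : (Fr ^ m) (η + η⁻¹) = a + a⁻¹ := by
    rw [map_add, Fr_pow, Fr_pow, inv_pow]
  have q2 : (Fr ^ (2 * m)) (η + η⁻¹) = π * η + (π * η)⁻¹ := by
    rw [two_mul, Fr_pow_add, q1, map_add, Fr_pow, Fr_pow, inv_pow, ea2]
  refine ⟨?_, ?_⟩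
  · rw [e3, map_add, Fr_pow, Fr_pow, inv_pow, o1, inv_inv, add_comm]
  · rw [q1, q2, ea]
    have h7 : 1 + π + π⁻¹ = 0 := by
      have : (1 + π + π⁻¹) * π = π ^ 2 + π + 1 := by
        rw [add_mul, add_mul, inv_mul_cancel₀ hπ0]
        ring
      rw [hsum] at this
      exact (mul_eq_zero.mp this).resolve_right hπ0
    have h8 : η + η⁻¹ + (π * η⁻¹ + (π * η⁻¹)⁻¹) + (π * η + (π * η)⁻¹) =
        (1 + π + π⁻¹) * η + (1 + π + π⁻¹) * η⁻¹ := by
      rw [mul_inv, mul_inv, inv_inv]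
      ring
    rw [h8, h7]
    ring

end MODT

open MODT in
/-- vanishing of a component gives vanishing of the traces -/
theorem stmt_MODT (hORB : Stmt_ORB2) (hCYC : Stmt_CYC3) : Stmt_MODT := by
  classical
  intro k S hS Z hZ ξ hξ i hi hik hcof r hr1 hr2
  obtain ⟨x1, x2⟩ := (hS ξ).mp hξ
  obtain ⟨o1, o2, o3⟩ := hORB k ξ x1 x2
  set n := 3 ^ k with hn
  set W := aeval ξ Z with hW
  have hξ0 : ξ ≠ 0 := by
    rintro rfl
    rw [zero_pow (by positivity)] at x1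
    exact zero_ne_one x1
  have hWn : (Fr ^ n) W = W := by
    rw [hW, aeval_frob, o1]
    exact hZ ξ hξ
  set η := ξ ^ r with hη
  have hηn : (Fr ^ n) η = η⁻¹ := by
    rw [Fr_pow, hη, ← pow_mul, mul_comm, pow_mul, o1, inv_pow]
  -- the order of `η`
  obtain ⟨r', hr'⟩ := hr1
  have h3 : ¬ 3 ∣ r' := by
    rintro ⟨c, rfl⟩
    apply hr2
    rw [hr', pow_succ]
    exact ⟨c, by ring⟩
  have hη1 : η ^ 3 ^ (i + 1) = 1 := by
    have e : r * 3 ^ (i + 1) = 3 ^ (k + 1) * r' := by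
      rw [hr']
      have : 3 ^ (k + 1) = 3 ^ (k - i) * 3 ^ (i + 1) := by
        rw [← pow_add]
        congr 1
        omega
      rw [this]
      ring
    rw [hη, ← pow_mul, e, pow_mul, x1, one_pow]
  have hη2 : η ^ 3 ^ i ≠ 1 := by
    have e : r * 3 ^ i = 3 ^ k * r' := by
      rw [hr']
      have : 3 ^ k = 3 ^ (k - i) * 3 ^ i := by
        rw [← pow_add]
        congr 1
        omega
      rw [this]
      ring
    rw [hη, ← pow_mul, e, pow_mul]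
    intro h
    apply h3
    have ho : orderOf (ξ ^ 3 ^ k) = 3 := by
      have : Fact (Nat.Prime 3) := ⟨Nat.prime_three⟩
      refine orderOf_eq_prime ?_ x2
      rw [← pow_mul, ← pow_succ]
      exact x1
    rw [← ho]
    exact orderOf_dvd_of_pow_eq_one h
  obtain ⟨t1, t2⟩ := theta hORB i hi η hη1 hη2
  -- reduction to the trace
  have hθn : (Fr ^ n) (η + η⁻¹) = η + η⁻¹ := by
    have : (Fr ^ n) η⁻¹ = η := by
      rw [Fr_pow, inv_pow, ← Fr_pow, hηn, inv_inv]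
    rw [map_add, hηn, this, add_comm]
  have hSim : S = (range (2 * n)).image (fun s => ξ ^ 2 ^ s) := by
    ext x
    rw [hS, o2, Finset.mem_image]
    constructor
    · rintro ⟨s, hs, rfl⟩
      exact ⟨s, Finset.mem_range.mpr hs, rfl⟩
    · rintro ⟨s, hs, rfl⟩
      exact ⟨s, Finset.mem_range.mp hs, rfl⟩
  have hsum : ∑ x ∈ S, x ^ r * aeval x Z = Tr n ((η + η⁻¹) * W) := by
    rw [hSim, Finset.sum_image]
    · have e1 : ∀ s, (ξ ^ 2 ^ s) ^ r * aeval (ξ ^ 2 ^ s) Z = (Fr ^ s) (η * W) := by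
        intro s
        rw [Fr_pow_mul, hW, aeval_frob, Fr_pow, hη, ← pow_mul, ← pow_mul, mul_comm (2 ^ s) r]
      simp only [e1]
      rw [two_mul, Finset.sum_range_add, add_mul, map_add, Tr_apply, Tr_apply]
      congr 1
      refine Finset.sum_congr rfl fun s _ => ?_
      rw [add_comm n s, Fr_pow_add, Fr_pow_mul n, hηn, hWn]
    · intro s hs t ht h
      exact o3 s (Finset.mem_range.mp hs) t (Finset.mem_range.mp ht) h
  rw [hsum]
  -- coprimality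
  have hcop : IsCoprime (cof k i) (cyclotomic (3 ^ i) (ZMod 2)) := by
    unfold cof
    refine IsCoprime.prod_left fun l hl => ?_
    exact hCYC.2.1 l i (Finset.mem_erase.mp hl).1
  obtain ⟨a, b, hab⟩ := hcop
  have hW1 : W = aeval Fr (cyclotomic (3 ^ i) (ZMod 2)) (aeval Fr b W) := by
    have h1 : aeval Fr (a * cof k i + b * cyclotomic (3 ^ i) (ZMod 2)) W = W := by
      rw [hab, map_one]
      rfl
    rw [map_add, LinearMap.add_apply, map_mul, Module.End.mul_apply, hcof, map_zero, zero_add,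
      mul_comm, map_mul, Module.End.mul_apply] at h1
    exact h1.symm
  rw [hCYC.2.2.2 i hi] at hW1
  rw [hW1]
  refine key n (3 ^ (i - 1)) (η + η⁻¹) (aeval Fr b W) t1 hθn t2 ?_
  have h2 : (Fr ^ n) (aeval Fr b W) = aeval Fr b ((Fr ^ n) W) := by
    have e2 : (Fr ^ n) = aeval Fr (X ^ n : (ZMod 2)[X]) := by
      rw [map_pow, aeval_X]
    rw [e2, ← Module.End.mul_apply, ← Module.End.mul_apply, ← map_mul, ← map_mul, mul_comm]
  rw [h2, hWn]

end Pool.Agent.Work.ES
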